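import Pool.Agent.H61.KW.Final
import Pool.Agent.H61.KW.Emb
import Pool.Agent.H61.KU.Final
import Pool.Agent.H61.KU.Orb

/-!
# Classification of the tight substantial embeddings of the complex projective plane in
Euclidean 8-space

The image of every tight and substantial topological embedding `f` of the complex projective plane in
8-dimensional Euclidean space is projectively equivalent to the image of the standard algebraic
embedding `[z] ↦ z z* / |z|^2` or to the image of the canonical polyhedral embedding of the 9-vertex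
triangulation of the complex projective plane.

* `PN 2` (file `Pool/Agent/H64/LB/Stmt.lean`) is the complex projective plane, the quotient of the
  space of nonzero vectors of `ℂ^3` by proportionality;
* `Ch (ZMod 2) (i + 1) Y` (file `Pool/Agent/H59/Sing.lean`) are the singular chains of degree `i` of
  `Y` with coefficients `ZMod 2` (the simplices of degree `i` have `i + 1` vertices),
  `bd (ZMod 2) i Y` is the boundary `Ch (ZMod 2) (i + 1) Y → Ch (ZMod 2) i Y` and `pf` the map of
  chains induced by a continuous map.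
-/

open Topology Set
open Pool.Agent.H59 Pool.Agent.H64.LB

namespace Pool.Agent.Results.MP_c11ac4_gt.Classification

/-- Euclidean 8-space -/
abbrev E8 : Type := EuclideanSpace ℝ (Fin 8)

/-- the inclusion of a subset of the complex projective plane -/
def incl (U : Set (PN 2)) : C(U, PN 2) := ⟨Subtype.val, continuous_subtype_val⟩

/-- `z` is a singular cycle of degree `i` of `Y`: for `i = 0` every chain is a cycle, for `i > 0` the
boundary of `z` has to be zero. -/
def IsCycle (i : ℕ) (Y : Type) [TopologicalSpace Y] (z : Ch (ZMod 2) (i + 1) Y) : Prop :=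
  i = 0 ∨ bd (ZMod 2) i Y z = 0

/-- the chain `z` of degree `i` is the boundary of a singular chain of `Y` -/
def Bounds (i : ℕ) (Y : Type) [TopologicalSpace Y] (z : Ch (ZMod 2) (i + 1) Y) : Prop :=
  ∃ w : Ch (ZMod 2) (i + 2) Y, bd (ZMod 2) (i + 1) Y w = z

/-- The inclusion of `U` induces an injective map in singular homology of degree `i` with
coefficients `ZMod 2`: every cycle of `U` which bounds in the complex projective plane bounds
in `U`. -/
def HInj (i : ℕ) (U : Set (PN 2)) : Prop :=
  ∀ z : Ch (ZMod 2) (i + 1) U, IsCycle i U z →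
    Bounds i (PN 2) (pf (ZMod 2) (i + 1) (incl U) z) → Bounds i U z

/-- the closed half-space of all `y` with `⟨ξ, y⟩ ≤ c` -/
def halfSpace (ξ : E8) (c : ℝ) : Set E8 := {y | inner ℝ ξ y ≤ c}

/-- `f` is tight: for every closed half-space `h` and every degree `i` the inclusion of `f⁻¹(h)`
induces an injective map in singular homology with coefficients `ZMod 2`. -/
def Tight (f : C(PN 2, E8)) : Prop :=
  ∀ (ξ : E8) (c : ℝ), ξ ≠ 0 → ∀ i : ℕ, HInj i (f ⁻¹' halfSpace ξ c)

/-- `f` is substantial: its image lies in no affine hyperplane. -/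
def Substantial (f : C(PN 2, E8)) : Prop :=
  ∀ (ξ : E8) (c : ℝ), ξ ≠ 0 → ∃ x : PN 2, inner ℝ ξ (f x) ≠ c

/-- `L` is a linear automorphism of the 9-dimensional space `E^8 × ℝ`. -/
def IsLinearAut (L : E8 × ℝ → E8 × ℝ) : Prop := IsLinearMap ℝ L ∧ Function.Bijective L

/-- The projective transformation given by `L`, in the affine coordinates `x ↦ (x, 1)` of
`E^8`. -/
noncomputable def projMap (L : E8 × ℝ → E8 × ℝ) (x : E8) : E8 := (L (x, 1)).2⁻¹ • (L (x, 1)).1

/-- `Y` is the image of `X` under a projective transformation whose exceptional hyperplane is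
disjoint from `X`: the exceptional hyperplane consists of the points `x` for which the second
coordinate of `L (x, 1)` is zero. -/
def ProjEquiv (X Y : Set E8) : Prop :=
  ∃ L : E8 × ℝ → E8 × ℝ, IsLinearAut L ∧ (∀ x ∈ X, (L (x, 1)).2 ≠ 0) ∧ Y = projMap L '' X

/-- the complex `3 × 3` matrices -/
abbrev Mat : Type := Matrix (Fin 3) (Fin 3) ℂ

/-- `Φ` is an affine map. -/
def IsAffine (Φ : E8 → Mat) : Prop :=
  ∀ (x y : E8) (t : ℝ), Φ ((1 - t) • x + t • y) = (1 - t) • Φ x + t • Φ y

/-- `Φ` identifies `E^8` with the affine space of the Hermitian `3 × 3` matrices of trace `1`. -/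
def IsIdentification (Φ : E8 → Mat) : Prop :=
  IsAffine Φ ∧ Function.Injective Φ ∧ ∀ A : Mat, A ∈ range Φ ↔ A.IsHermitian ∧ A.trace = 1

/-- the Hermitian matrix `z z* / |z|^2` -/
noncomputable def rankOne (z : Fin 3 → ℂ) : Mat :=
  (∑ i, ‖z i‖ ^ 2)⁻¹ • Matrix.vecMulVec z (star z)

/-- the image of the standard algebraic embedding, for the identification `Φ` -/
def algebraicImage (Φ : E8 → Mat) : Set E8 := {y | ∃ z : Fin 3 → ℂ, z ≠ 0 ∧ Φ y = rankOne z}

/-- the permutation `(147)(258)(369)`; the vertices `1, ..., 9` are written `0, ..., 8` -/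
def g1 : Equiv.Perm (Fin 9) :=
  (Equiv.swap 0 3 * Equiv.swap 3 6) * ((Equiv.swap 1 4 * Equiv.swap 4 7) *
    (Equiv.swap 2 5 * Equiv.swap 5 8))

/-- the permutation `(123)(465)` -/
def g2 : Equiv.Perm (Fin 9) :=
  (Equiv.swap 0 1 * Equiv.swap 1 2) * (Equiv.swap 3 5 * Equiv.swap 5 4)

/-- the permutation `(12)(45)(78)` -/
def g3 : Equiv.Perm (Fin 9) := Equiv.swap 0 1 * (Equiv.swap 3 4 * Equiv.swap 6 7)

/-- `G` is a 4-simplex of the 9-vertex triangulation of the complex projective plane: it lies in the
orbit of `12456` or of `12459` under the group generated by the three permutations. -/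
def IsSimplex4 (G : Finset (Fin 9)) : Prop :=
  ∃ g ∈ Subgroup.closure ({g1, g2, g3} : Set (Equiv.Perm (Fin 9))),
    G = Finset.image g {0, 1, 3, 4, 5} ∨ G = Finset.image g {0, 1, 3, 4, 8}

/-- the image of the canonical polyhedral embedding of the 9-vertex triangulation in the 8-simplex
with the vertices `v 0, ..., v 8`: the union of the simplices spanned by those 5-tuples of vertices
which are the 4-simplices of the triangulation -/
def polyhedralImage (v : Fin 9 → E8) : Set E8 :=
  ⋃ G ∈ {G : Finset (Fin 9) | IsSimplex4 G}, convexHull ℝ (v '' (G : Set (Fin 9)))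

/-- The definition by cycles says that the induced map in homology is injective. -/
theorem injective_of_hInj {i : ℕ} {U : Set (PN 2)} (h : HInj i U) :
    Function.Injective (HH.map (ZMod 2) i (incl U)) := by
  rw [injective_iff_map_eq_zero]
  intro z hz
  obtain ⟨z, rfl⟩ := HH.mk_surjective (ZMod 2) i z
  rw [HH.map_mk, HH.mk_eq_zero_iff] at hz
  rw [HH.mk_eq_zero_iff]
  refine h z.1 ?_ hz
  cases i with
  | zero => exact Or.inl rfl
  | succ q => exact Or.inr ((mem_ZZ_succ (ZMod 2)).1 z.2)

/-- If `f : CP^2 → E^8` is a tight and substantial topological embedding then its image is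
projectively equivalent to the image of the standard algebraic embedding or to the image of the
canonical polyhedral embedding of the 9-vertex triangulation; here `Φ` is any identification of
`E^8` with the Hermitian matrices of trace `1`, and `v` are the vertices of any 8-simplex. -/
theorem result (Φ : E8 → Mat) (hΦ : IsIdentification Φ) (v : Fin 9 → E8)
    (hv : AffineIndependent ℝ v) (f : C(PN 2, E8)) (hinj : Function.Injective f) (ht : Tight f)
    (hs : Substantial f) :
    ProjEquiv (range f) (algebraicImage Φ) ∨ ProjEquiv (range f) (polyhedralImage v) := by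
  have ht' : Pool.Agent.H61.KU.Tight f := fun ξ c hξ i => injective_of_hInj (ht ξ c hξ i)
  have key : ∀ X Y : Set E8, (∃ L : (E8 × ℝ) ≃ₗ[ℝ] (E8 × ℝ), (∀ x ∈ X, (L (x, 1)).2 ≠ 0) ∧
      Y = {y | ∃ x ∈ X, y = ((L (x, 1)).2)⁻¹ • (L (x, 1)).1}) → ProjEquiv X Y := by
    rintro X Y ⟨L, h1, rfl⟩
    refine ⟨L, ⟨L.toLinearMap.isLinear, L.bijective⟩, h1, ?_⟩
    ext y
    constructor
    · rintro ⟨x, hx, rfl⟩
      exact ⟨x, hx, rfl⟩
    · rintro ⟨x, hx, rfl⟩
      exact ⟨x, hx, rfl⟩
  obtain ⟨hCFI, hVER, hDIC⟩ := Pool.Agent.H61.KW.all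
  rcases hDIC f hinj ht' hs with hp | hn
  · right
    obtain ⟨w, hw, hr⟩ := Pool.Agent.H61.KU.final f hinj ht' hs hp
    have h : ∀ G : Finset (Fin 9), G ∈ Pool.Agent.H61.KU.CP29 ↔ IsSimplex4 G :=
      fun G => (Pool.Agent.H61.KU.facet_iff G).symm
    have hr' : range f = ⋃ G ∈ {G : Finset (Fin 9) | IsSimplex4 G},
        convexHull ℝ (w '' (G : Set (Fin 9))) := by
      rw [hr]
      ext x
      simp only [mem_iUnion, mem_setOf_eq]
      constructor
      · rintro ⟨G, hG, hx⟩
        exact ⟨G, (h G).1 hG, hx⟩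
      · rintro ⟨G, hG, hx⟩
        exact ⟨G, (h G).2 hG, hx⟩
    rw [hr']
    exact key _ _ (Pool.Agent.H61.KW.Proj.poly w v hw hv IsSimplex4)
  · left
    obtain ⟨M, h1, h2, h3, h4⟩ := Pool.Agent.H61.KW.embN hVER f (hCFI f hinj ht' hs) hn
    obtain ⟨Ψ, hΨ⟩ := Pool.Agent.H61.KW.Proj.toAffine Φ hΦ.1
    have h5 := Pool.Agent.H61.KW.Proj.std (range f) M Ψ h1 h2 h3 h4
      (by rw [hΨ]; exact hΦ.2.1) (by rw [hΨ]; exact hΦ.2.2)
    rw [hΨ] at h5
    exact key _ _ h5

end Pool.Agent.Results.MP_c11ac4_gt.Classification
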